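import Mathlib
import Pool.Agent.PRK.OddCase
import Pool.Agent.PRW.All

/-!
# `K_k`-free pseudorandom graphs of density `n ^ (-1/k)` for every `k ≥ 4`
-/

set_option autoImplicit false
open Classical

namespace Pool.Agent.Results.MP_12c886_co.EveryCliqueFree

/-- For every `k ≥ 4` and every `N` there are `n ≥ N` and a `K_k`-free `d`-regular graph on `n`
vertices with `d ≥ n ^ (1 - 1/k) / 2` all of whose eigenvalues on vectors orthogonal to the all-ones
vector are at most `k √d` in absolute value. -/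
theorem result :
    ∀ k : ℕ, 4 ≤ k →
      ∀ N : ℕ, ∃ n : ℕ, N ≤ n ∧
        ∃ G : SimpleGraph (Fin n), ∃ d : ℕ,
          G.IsRegularOfDegree d ∧
          G.CliqueFree k ∧
          (1 / 2 : ℝ) * (n : ℝ) ^ ((1 : ℝ) - 1 / (k : ℝ)) ≤ (d : ℝ) ∧
          ∀ x : Fin n → ℝ, (∑ i, x i) = 0 →
            |∑ i, ∑ j, (if G.Adj i j then x i * x j else 0)|
              ≤ ((k : ℝ) * Real.sqrt (d : ℝ)) * ∑ i, x i ^ 2 := by
  intro k hk N
  rcases Nat.even_or_odd k with he | ho
  · obtain ⟨s, rfl⟩ : ∃ s, k = 2 * (s + 2) := by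
      obtain ⟨t, rfl⟩ := he
      exact ⟨t - 2, by omega⟩
    exact PRW.even_case s N
  · have h5 : 5 ≤ k := by
      obtain ⟨t, rfl⟩ := ho
      omega
    obtain ⟨n, hn, G, d, h1, h2, h3, h4⟩ := PRK.odd_case k h5 ho N
    refine ⟨n, hn, G, d, h1, h2, h3, fun x hx => (h4 x hx).trans ?_⟩
    refine mul_le_mul_of_nonneg_right ?_ (Finset.sum_nonneg fun _ _ => sq_nonneg _)
    refine le_mul_of_one_le_left (Real.sqrt_nonneg _) ?_
    exact_mod_cast (by omega : 1 ≤ k)

end Pool.Agent.Results.MP_12c886_co.EveryCliqueFree
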