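import Mathlib
import Pool.Agent.Hex4.Final

/-!
# Optimal pseudorandom `K_4`-free graphs
-/

set_option autoImplicit false
open Classical

namespace Pool.Agent.Results.MP_12c886_co.OptimalKFour

/-- For every `N` there are `n ≥ N` and a `K_4`-free `d`-regular graph on `n` vertices with
`d ≥ n ^ (1 - 1/5) / 4` all of whose eigenvalues on vectors orthogonal to the all-ones vector are
at most `300 √d` in absolute value. -/
theorem result :
    ∀ N : ℕ, ∃ n : ℕ, N ≤ n ∧
      ∃ G : SimpleGraph (Fin n), ∃ d : ℕ,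
        G.IsRegularOfDegree d ∧
        G.CliqueFree 4 ∧
        (1 / 4 : ℝ) * (n : ℝ) ^ ((1 : ℝ) - 1 / 5) ≤ (d : ℝ) ∧
        ∀ x : Fin n → ℝ, (∑ i, x i) = 0 →
          |∑ i, ∑ j, (if G.Adj i j then x i * x j else 0)|
            ≤ 300 * Real.sqrt (d : ℝ) * ∑ i, x i ^ 2 := by
  intro N
  have hu : IsUnit ((2 : ℕ) : ZMod 3) := by
    rw [ZMod.isUnit_iff_coprime]
    decide
  obtain ⟨p, hpN, hp, hp3⟩ := Nat.forall_exists_prime_gt_and_eq_mod hu (max N 5)
  have h5 : 5 ≤ p := le_trans (le_max_right _ _) hpN.le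
  have hN : N ≤ p := le_trans (le_max_left _ _) hpN.le
  have h3 : p % 3 = 2 := by
    have := (ZMod.natCast_eq_natCast_iff' p 2 3).mp hp3
    simpa using this
  exact ⟨p ^ 5, hN.trans (Nat.le_self_pow (by norm_num) p), Hex4.prime_case p hp h5 h3⟩

end Pool.Agent.Results.MP_12c886_co.OptimalKFour
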